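import Pool.Agent.SZG.StmtsW

set_option autoImplicit false

namespace Pool.Agent.SZG.H77

open Pool.Agent.THS Pool.Agent.SZG

theorem wtx (qsa : QsaStmt) : WtxStmt := by
  intro K I _ _ v g E L0 c e s T x h
  have hE0 : (0 : ℝ) < (E : ℝ) := by exact_mod_cast h.hE
  have hE1 : (E : ℝ) ≠ 0 := hE0.ne'
  have Q := qsa K I g E L0 c e s T x h
  have vne : ∀ m ∈ L0, ∀ i, v (e m i) ≠ 0 := fun m hm i => v.ne_zero_iff.2 (h.ene m hm i)
  have vpos : ∀ m ∈ L0, ∀ i, 0 < v (e m i) := fun m hm i => v.pos (h.ene m hm i)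
  let b : I → I → ℝ := fun i j => Real.log (v (e (E • i) j))
  have hb : ∀ i j, b i j = Real.log (v (e (E • i) j)) := fun _ _ => rfl
  have bl : ∀ i i' j, b (i + i') j = b i j + b i' j := by
    intro i i' j
    rw [hb, hb, hb, smul_add]
    have := (Q (E • i) (h.mem i) (E • i') (h.mem i')).2.2.2.2.2.1 j
    rw [this, map_mul, Real.log_mul (vne _ (h.mem i) j) (vne _ (h.mem i') j)]
  have br : ∀ i j j', b i (j + j') = b i j + b i j' := by
    intro i j j'
    rw [hb, hb, hb, h.eadd (E • i) (h.mem i) j j', map_mul,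
      Real.log_mul (vne _ (h.mem i) j) (vne _ (h.mem i) j')]
  have pw : ∀ i j, (E : ℝ) * b i j = Real.log (v (e (E • i) (E • j))) := by
    intro i j
    have := (Q (E • i) (h.mem i) (E • i) (h.mem i)).2.2.2.2.2.2.2.2 (E : ℤ) j
    rw [natCast_zsmul, zpow_natCast] at this
    rw [this, map_pow, Real.log_pow, hb]
  have sy : ∀ i j, b i j = b j i := by
    intro i j
    have h1 := pw i j
    have h2 := pw j i
    have h3 := (Q (E • i) (h.mem i) (E • j) (h.mem j)).2.2.2.2.1
    rw [h3, ← h2] at h1
    exact mul_left_cancel₀ hE1 h1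
  have b0 : ∀ j, b 0 j = 0 := by
    intro j
    have := bl 0 0 j
    rw [add_zero] at this
    linarith
  have bn : ∀ i j, b (-i) j = -b i j := by
    intro i j
    have := bl i (-i) j
    rw [add_neg_cancel, b0] at this
    linarith
  have bnn : ∀ i, b (-i) (-i) = b i i := by
    intro i
    rw [bn, sy, bn, neg_neg]
  have hW : ∀ i, Wf v E e i = Real.exp (b i i / (2 * (E : ℝ))) := fun _ => rfl
  have hX : ∀ i j, Xf v E e i j = Real.exp (b i j / (E : ℝ)) := fun _ _ => rfl
  have pm : ∀ m ∈ L0, ∀ i, b m i = (E : ℝ) * Real.log (v (e m i)) := by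
    intro m hm i
    have := (Q m hm m hm).2.2.2.2.2.2.2.1 (E : ℤ) i
    rw [natCast_zsmul, zpow_natCast] at this
    rw [hb, this, map_pow, Real.log_pow]
  exact
    { pos := fun i => Real.exp_pos _
      xpos := fun i j => Real.exp_pos _
      neg := fun i => by rw [hW, hW, bnn]
      add := fun i j => by
        rw [hW, hW, hW, hX, ← Real.exp_add, ← Real.exp_add, bl, br, br, sy j i]
        congr 1
        field_simp
        ring
      xadd := fun i j k => by
        rw [hX, hX, hX, ← Real.exp_add, bl]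
        congr 1
        ring
      xsymm := fun i j => by rw [hX, hX, sy]
      ce := fun m hm => by
        rw [hW, pm m hm m]
        have h1 := (Q m hm m hm).2.2.1
        rw [← h1, map_pow, Real.log_pow]
        have h2 : (E : ℝ) * (((2 : ℕ) : ℝ) * Real.log (v (c m))) / (2 * (E : ℝ)) =
            Real.log (v (c m)) := by
          push_cast
          field_simp
        rw [h2, Real.exp_log (v.pos (h.cne m hm))]
      ee := fun m hm i => by
        rw [hX, pm m hm i, mul_div_cancel_left₀ _ hE1, Real.exp_log (vpos m hm i)] }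

end Pool.Agent.SZG.H77
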